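import Mathlib

/-!
# Chains of subgroups and Følner sets

The entropy inequality: if `F` is a nonempty finite subset of a group and `K 0 ≤ K 1 ≤ ⋯ ≤ K m` is
a chain of subgroups with `g i ∈ K (i + 1) \ K i`, then
`m log 2 - ∑ i, out (g i) / |F| ≤ log |F|`, where `out g` is the number of `f ∈ F` with `f g ∉ F`.
-/

set_option autoImplicit false

open Pointwise

namespace Pool.Agent.Lib.MP_f7e2be_al

variable {G : Type*} [Group G]

/-- The ball of radius `n` of the word metric: products of at most `n` elements of `S` and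
inverses of elements of `S`. -/
def Ball (S : Set G) (n : ℕ) : Set G :=
  {g | ∃ l : List G, (∀ x ∈ l, x ∈ S ∨ x⁻¹ ∈ S) ∧ l.length ≤ n ∧ l.prod = g}

/-- `F` is a Følner set of scale `n`: `F` is finite and nonempty and `|F S \ F| ≤ |F| / n`. -/
def IsFolner (S : Finset G) (n : ℕ) (F : Set G) : Prop :=
  F.Finite ∧ F.Nonempty ∧
    (n : ℝ) * ((((F * (S : Set G)) \ F).ncard : ℕ) : ℝ) ≤ (F.ncard : ℝ)

/-- The Følner function is sub-exponential (as in the frozen statement). -/
def SubexpFolner (S : Finset G) : Prop :=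
  ∀ ε : ℝ, 0 < ε → ∃ N : ℕ, ∀ n : ℕ, N ≤ n → 1 ≤ n →
    ∃ F : Set G, F.Finite ∧ F.Nonempty ∧
      (F.ncard : ℝ) ≤ Real.exp (ε * (n : ℝ)) ∧
      (n : ℝ) * ((((F * (S : Set G)) \ F).ncard : ℕ) : ℝ) ≤ (F.ncard : ℝ)

section ball

variable {S : Set G}

theorem one_mem_ball (n : ℕ) : (1 : G) ∈ Ball S n := ⟨[], by simp, by simp, by simp⟩

theorem ball_mono {m n : ℕ} (h : m ≤ n) : Ball S m ⊆ Ball S n := by
  rintro g ⟨l, hl, hn, hg⟩
  exact ⟨l, hl, hn.trans h, hg⟩

theorem mul_mem_ball {m n : ℕ} {g h : G} (hg : g ∈ Ball S m) (hh : h ∈ Ball S n) :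
    g * h ∈ Ball S (m + n) := by
  obtain ⟨l, hl, hn, rfl⟩ := hg
  obtain ⟨l', hl', hn', rfl⟩ := hh
  refine ⟨l ++ l', ?_, ?_, by simp⟩
  · intro x hx
    rcases List.mem_append.mp hx with h | h
    · exact hl x h
    · exact hl' x h
  · rw [List.length_append]; omega

theorem inv_mem_ball {n : ℕ} {g : G} (hg : g ∈ Ball S n) : g⁻¹ ∈ Ball S n := by
  obtain ⟨l, hl, hn, rfl⟩ := hg
  refine ⟨(l.map (·⁻¹)).reverse, ?_, by simpa using hn, (List.prod_inv_reverse l).symm⟩
  intro x hx
  rw [List.mem_reverse, List.mem_map] at hx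
  obtain ⟨y, hy, rfl⟩ := hx
  rcases hl y hy with h | h
  · right; rwa [inv_inv]
  · left; exact h

theorem mem_ball_one {s : G} (hs : s ∈ S ∨ s⁻¹ ∈ S) : s ∈ Ball S 1 :=
  ⟨[s], by simpa using hs, by simp, by simp⟩

end ball

section entropy

open Classical in
/-- number of points of `F` which leave `F` under right multiplication by `g` -/
noncomputable def out (F : Finset G) (g : G) : ℕ := (F.filter fun f => f * g ∉ F).card

open Classical in
theorem out_add (F : Finset G) (g : G) :
    (F.filter fun f => f * g ∈ F).card + out F g = F.card :=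
  Finset.card_filter_add_card_filter_not _

open Classical in
theorem out_one (F : Finset G) : out F 1 = 0 := by
  unfold out
  rw [Finset.card_eq_zero, Finset.filter_eq_empty_iff]
  intro f hf
  simpa using hf

open Classical in
theorem out_mul (F : Finset G) (g h : G) : out F (g * h) ≤ out F g + out F h := by
  unfold out
  have h1 : (F.filter fun f => f * (g * h) ∉ F) ⊆ (F.filter fun f => f * g ∉ F) ∪
      (F.filter fun f => f * g ∈ F ∧ f * g * h ∉ F) := by
    intro f hf
    rw [Finset.mem_filter] at hf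
    rw [Finset.mem_union, Finset.mem_filter, Finset.mem_filter]
    by_cases hg : f * g ∈ F
    · right; exact ⟨hf.1, hg, by rw [mul_assoc]; exact hf.2⟩
    · left; exact ⟨hf.1, hg⟩
  refine (Finset.card_le_card h1).trans ((Finset.card_union_le _ _).trans ?_)
  apply Nat.add_le_add_left
  apply Finset.card_le_card_of_injOn (fun f => f * g)
  · intro f hf
    simp only [Finset.coe_filter, Set.mem_ofPred_eq] at hf ⊢
    exact ⟨hf.2.1, hf.2.2⟩
  · intro a _ b _ hab
    exact mul_right_cancel hab

open Classical in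
theorem out_inv (F : Finset G) (g : G) : out F g⁻¹ = out F g := by
  have h1 := out_add F g
  have h2 := out_add F g⁻¹
  have h3 : (F.filter fun f => f * g ∈ F).card = (F.filter fun f => f * g⁻¹ ∈ F).card := by
    apply Finset.card_bij (fun f _ => f * g)
    · intro f hf
      rw [Finset.mem_filter] at hf ⊢
      exact ⟨hf.2, by simpa using hf.1⟩
    · intro a _ b _ hab
      exact mul_right_cancel hab
    · intro f hf
      rw [Finset.mem_filter] at hf
      refine ⟨f * g⁻¹, ?_, by simp⟩
      rw [Finset.mem_filter]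
      exact ⟨hf.2, by simpa using hf.1⟩
  omega

theorem out_gen (F : Finset G) (S : Finset G) {s : G} (hs : s ∈ S) :
    out F s ≤ (((F : Set G) * (S : Set G)) \ (F : Set G)).ncard := by
  classical
  unfold out
  rw [← Set.ncard_coe_finset]
  have hfin : (((F : Set G) * (S : Set G)) \ (F : Set G)).Finite :=
    (F.finite_toSet.mul S.finite_toSet).sdiff
  refine Set.ncard_le_ncard_of_injOn (fun f => f * s) ?_ ?_ hfin
  · intro f hf
    simp only [Finset.coe_filter, Set.mem_ofPred_eq] at hf
    exact ⟨Set.mul_mem_mul hf.1 hs, hf.2⟩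
  · intro a _ b _ hab
    exact mul_right_cancel hab

theorem out_ball (F : Finset G) (S : Finset G) {n : ℕ} {g : G} (hg : g ∈ Ball (S : Set G) n) :
    out F g ≤ n * (((F : Set G) * (S : Set G)) \ (F : Set G)).ncard := by
  obtain ⟨l, hl, hn, rfl⟩ := hg
  refine le_trans ?_ (Nat.mul_le_mul_right _ hn)
  clear hn
  induction l with
  | nil => simp [out_one]
  | cons a l ih =>
    rw [List.prod_cons, List.length_cons, Nat.add_mul, Nat.one_mul, Nat.add_comm]
    refine (out_mul F a l.prod).trans ?_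
    gcongr
    · rcases hl a List.mem_cons_self with h | h
      · exact out_gen F S h
      · rw [← out_inv]; exact out_gen F S h
    · exact ih (fun x hx => hl x (List.mem_cons_of_mem _ hx))

open Classical in
/-- number of points of `F` in the coset `h K` -/
noncomputable def cc (F : Finset G) (K : Subgroup G) (h : G) : ℕ :=
  (F.filter fun f => h⁻¹ * f ∈ K).card

open Classical in
theorem cc_pos {F : Finset G} (K : Subgroup G) {h : G} (hh : h ∈ F) : 0 < cc F K h := by
  unfold cc
  rw [Finset.card_pos]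
  exact ⟨h, by rw [Finset.mem_filter]; exact ⟨hh, by simp⟩⟩

open Classical in
theorem cc_le_card (F : Finset G) (K : Subgroup G) (h : G) : cc F K h ≤ F.card :=
  Finset.card_filter_le _ _

open Classical in
/-- two cosets of a smaller subgroup -/
theorem cc_add_le (F : Finset G) {K' K : Subgroup G} (hKK : K' ≤ K) {g : G} (hg : g ∈ K)
    (hg' : g ∉ K') (h : G) : cc F K' h + cc F K' (h * g) ≤ cc F K h := by
  unfold cc
  rw [← Finset.card_union_of_disjoint]
  · apply Finset.card_le_card
    intro f hf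
    rw [Finset.mem_union, Finset.mem_filter, Finset.mem_filter] at hf
    rw [Finset.mem_filter]
    rcases hf with ⟨h1, h2⟩ | ⟨h1, h2⟩
    · exact ⟨h1, hKK h2⟩
    · refine ⟨h1, ?_⟩
      have h3 := K.mul_mem hg (hKK h2)
      have h4 : g * ((h * g)⁻¹ * f) = h⁻¹ * f := by group
      rwa [h4] at h3
  · rw [Finset.disjoint_left]
    intro f h1 h2
    rw [Finset.mem_filter] at h1 h2
    apply hg'
    have h3 := K'.mul_mem h1.2 (K'.inv_mem h2.2)
    have h4 : h⁻¹ * f * ((h * g)⁻¹ * f)⁻¹ = g := by group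
    rwa [h4] at h3

/-- the entropy -/
noncomputable def Phi (F : Finset G) (K : Subgroup G) : ℝ := ∑ f ∈ F, Real.log (cc F K f)

theorem Phi_nonneg (F : Finset G) (K : Subgroup G) : 0 ≤ Phi F K :=
  Finset.sum_nonneg fun f hf => Real.log_nonneg (by exact_mod_cast cc_pos K hf)

theorem Phi_le (F : Finset G) (K : Subgroup G) : Phi F K ≤ F.card * Real.log F.card := by
  unfold Phi
  rw [← nsmul_eq_mul, ← Finset.sum_const]
  apply Finset.sum_le_sum
  intro f hf
  apply Real.log_le_log (by exact_mod_cast cc_pos K hf)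
  exact_mod_cast cc_le_card F K f

theorem Phi_step (F : Finset G) {K' K : Subgroup G} (hKK : K' ≤ K) {g : G} (hg : g ∈ K)
    (hg' : g ∉ K') : Phi F K' + (F.card * Real.log 2 - out F g) ≤ Phi F K := by
  classical
  -- the density of the small coset
  set ρ : G → ℝ := fun h => (cc F K' h : ℝ) / cc F K h with hρ
  have hρ0 : ∀ h, 0 ≤ ρ h := fun h => by positivity
  have hcc : ∀ h, cc F K (h * g) = cc F K h := by
    intro h
    unfold cc
    congr 1
    apply Finset.filter_congr
    intro f _
    have h4 : h⁻¹ * f = g * ((h * g)⁻¹ * f) := by group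
    rw [h4, K.mul_mem_cancel_left hg]
  have hle1 : ∀ h, cc F K' h ≤ cc F K h := fun h =>
    (Nat.le_add_right _ _).trans (cc_add_le F hKK hg hg' h)
  have hρ1 : ∀ f ∈ F, ρ f ≤ 1 := by
    intro f hf
    have h1 : (0 : ℝ) < cc F K f := by exact_mod_cast cc_pos K hf
    rw [hρ]
    simp only
    rw [div_le_one h1]
    exact_mod_cast hle1 f
  have hsum : ∀ f ∈ F, ρ f + ρ (f * g) ≤ 1 := by
    intro f hf
    have h1 : (0 : ℝ) < cc F K f := by exact_mod_cast cc_pos K hf
    rw [hρ]
    simp only
    rw [hcc f, ← add_div, div_le_one h1]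
    exact_mod_cast cc_add_le F hKK hg hg' f
  have hinj : Set.InjOn (fun f : G => f * g) (F : Set G) := fun a _ b _ hab =>
    mul_right_cancel hab
  have hsum2 : ∑ f ∈ F, ρ (f * g) ≥ ∑ f ∈ F, ρ f - out F g := by
    have h1 : ∑ f ∈ F, ρ (f * g) ≥ ∑ f ∈ F with f * g ∈ F, ρ (f * g) := by
      apply Finset.sum_le_sum_of_subset_of_nonneg (Finset.filter_subset _ _)
      intro f _ _
      exact hρ0 _
    have h2 : ∑ f ∈ F with f * g ∈ F, ρ (f * g) = ∑ f ∈ F with f * g⁻¹ ∈ F, ρ f := by
      apply Finset.sum_bij (fun f _ => f * g)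
      · intro f hf
        rw [Finset.mem_filter] at hf ⊢
        exact ⟨hf.2, by simpa using hf.1⟩
      · intro a _ b _ hab
        exact mul_right_cancel hab
      · intro f hf
        rw [Finset.mem_filter] at hf
        refine ⟨f * g⁻¹, ?_, by simp⟩
        rw [Finset.mem_filter]
        exact ⟨hf.2, by simpa using hf.1⟩
      · intro f _
        rfl
    have h3 : ∑ f ∈ F with f * g⁻¹ ∈ F, ρ f + ∑ f ∈ F with ¬ (f * g⁻¹ ∈ F), ρ f =
        ∑ f ∈ F, ρ f := Finset.sum_filter_add_sum_filter_not F _ _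
    have h4 : ∑ f ∈ F with ¬ (f * g⁻¹ ∈ F), ρ f ≤ out F g := by
      rw [← out_inv]
      unfold out
      rw [← nsmul_one, ← Finset.sum_const]
      apply Finset.sum_le_sum
      intro f hf
      exact hρ1 f (Finset.mem_of_mem_filter f hf)
    linarith
  have hsum3 : 2 * ∑ f ∈ F, ρ f ≤ F.card + out F g := by
    have h1 : ∑ f ∈ F, (ρ f + ρ (f * g)) ≤ F.card := by
      rw [← nsmul_one, ← Finset.sum_const]
      exact Finset.sum_le_sum hsum
    rw [Finset.sum_add_distrib] at h1
    linarith
  have hlog : ∀ f ∈ F, Real.log (cc F K' f) + (Real.log 2 + 1 - 2 * ρ f) ≤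
      Real.log (cc F K f) := by
    intro f hf
    have h1 : (0 : ℝ) < cc F K f := by exact_mod_cast cc_pos K hf
    have h2 : (0 : ℝ) < cc F K' f := by exact_mod_cast cc_pos K' hf
    have h3 : 0 < ρ f := div_pos h2 h1
    have h4 : Real.log (2 * ρ f) ≤ 2 * ρ f - 1 := Real.log_le_sub_one_of_pos (by positivity)
    rw [Real.log_mul two_ne_zero h3.ne'] at h4
    have h5 : Real.log (ρ f) = Real.log (cc F K' f) - Real.log (cc F K f) :=
      Real.log_div h2.ne' h1.ne'
    linarith
  have htot := Finset.sum_le_sum hlog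
  rw [Finset.sum_add_distrib, Finset.sum_sub_distrib, Finset.sum_const, ← Finset.mul_sum,
    nsmul_eq_mul] at htot
  unfold Phi
  linarith

/-- **The entropy inequality for chains of subgroups.** -/
theorem chain_entropy {F : Finset G} (m : ℕ) (K : ℕ → Subgroup G) (g : ℕ → G)
    (hK : ∀ i < m, K i ≤ K (i + 1)) (hg : ∀ i < m, g i ∈ K (i + 1)) (hg' : ∀ i < m, g i ∉ K i) :
    ∑ i ∈ Finset.range m, (F.card * Real.log 2 - out F (g i)) ≤ F.card * Real.log F.card := by
  have h : ∀ k ≤ m, ∑ i ∈ Finset.range k, (F.card * Real.log 2 - out F (g i)) ≤ Phi F (K k) := by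
    intro k hk
    induction k with
    | zero => simpa using Phi_nonneg F (K 0)
    | succ k ih =>
      rw [Finset.sum_range_succ]
      have h1 := ih (by omega)
      have h2 := Phi_step F (hK k (by omega)) (hg k (by omega)) (hg' k (by omega))
      linarith
  exact (h m le_rfl).trans (Phi_le F _)

/-- The inequality for Følner sets. -/
theorem chain_folner {S : Finset G} {n : ℕ} (hn : 1 ≤ n) {F : Set G} (hF : IsFolner S n F)
    (m : ℕ) (K : ℕ → Subgroup G) (g : ℕ → G) (r : ℕ → ℕ)
    (hK : ∀ i < m, K i ≤ K (i + 1)) (hg : ∀ i < m, g i ∈ K (i + 1)) (hg' : ∀ i < m, g i ∉ K i)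
    (hr : ∀ i < m, g i ∈ Ball (S : Set G) (r i)) :
    ∑ i ∈ Finset.range m, (Real.log 2 - r i / n) ≤ Real.log F.ncard := by
  obtain ⟨hfin, hne, hfol⟩ := hF
  obtain ⟨F, rfl⟩ := hfin.exists_finset_coe
  have hne' : F.Nonempty := by exact_mod_cast hne
  rw [Set.ncard_coe_finset] at hfol ⊢
  have hc : (0 : ℝ) < F.card := by exact_mod_cast hne'.card_pos
  have hn' : (0 : ℝ) < n := by exact_mod_cast hn
  have h1 := chain_entropy (F := F) m K g hK hg hg'
  have h2 : ∑ i ∈ Finset.range m, (F.card * (Real.log 2 - r i / n)) ≤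
      ∑ i ∈ Finset.range m, (F.card * Real.log 2 - out F (g i)) := by
    apply Finset.sum_le_sum
    intro i hi
    rw [Finset.mem_range] at hi
    have h3 : (out F (g i) : ℝ) ≤ r i * ((((F : Set G) * (S : Set G)) \ (F : Set G)).ncard : ℝ) := by
      exact_mod_cast out_ball F S (hr i hi)
    have h4 : ((((F : Set G) * (S : Set G)) \ (F : Set G)).ncard : ℝ) ≤ F.card / n := by
      rw [le_div_iff₀ hn']
      linarith
    have h5 : (r i : ℝ) * ((((F : Set G) * (S : Set G)) \ (F : Set G)).ncard : ℝ) ≤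
        r i * (F.card / n) := by gcongr
    have h6 : (r i : ℝ) * (F.card / n) = F.card * (r i / n) := by ring
    rw [mul_sub]
    linarith
  rw [← Finset.mul_sum] at h2
  exact le_of_mul_le_mul_left (h2.trans h1) hc

end entropy

end Pool.Agent.Lib.MP_f7e2be_al
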