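import Pool.Agent.Lib.MP_f7e2be_al.Chain

/-!
# The multi-scale form of the entropy inequality
-/

set_option autoImplicit false

open Pointwise

namespace Pool.Agent.Lib.MP_f7e2be_al

variable {G : Type*} [Group G]

theorem Phi_mono (F : Finset G) {K' K : Subgroup G} (hKK : K' ≤ K) : Phi F K' ≤ Phi F K := by
  classical
  unfold Phi
  apply Finset.sum_le_sum
  intro f hf
  apply Real.log_le_log (by exact_mod_cast cc_pos K' hf)
  have : cc F K' f ≤ cc F K f := by
    unfold cc
    apply Finset.card_le_card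
    intro x hx
    rw [Finset.mem_filter] at hx ⊢
    exact ⟨hx.1, hKK hx.2⟩
  exact_mod_cast this

theorem out_le_card (F : Finset G) (g : G) : out F g ≤ F.card := by
  have := out_add F g
  omega

open Classical in
/-- many cosets of a smaller subgroup -/
theorem cc_sum_le (F : Finset G) {K' K : Subgroup G} (hKK : K' ≤ K) (T : Finset G)
    (hT : ∀ t ∈ T, t ∈ K) (hd : ∀ t ∈ T, ∀ t' ∈ T, t⁻¹ * t' ∈ K' → t = t') (h : G) :
    ∑ t ∈ T, cc F K' (h * t) ≤ cc F K h := by
  unfold cc
  rw [← Finset.card_biUnion]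
  · apply Finset.card_le_card
    intro f hf
    rw [Finset.mem_biUnion] at hf
    obtain ⟨t, ht, hf⟩ := hf
    rw [Finset.mem_filter] at hf ⊢
    refine ⟨hf.1, ?_⟩
    have h3 := K.mul_mem (hT t ht) (hKK hf.2)
    have h4 : t * ((h * t)⁻¹ * f) = h⁻¹ * f := by group
    rwa [h4] at h3
  · intro t ht t' ht' hne
    rw [Function.onFun, Finset.disjoint_left]
    intro f h1 h2
    rw [Finset.mem_filter] at h1 h2
    apply hne
    apply hd t ht t' ht'
    have h3 := K'.mul_mem h1.2 (K'.inv_mem h2.2)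
    have h4 : (h * t)⁻¹ * f * ((h * t')⁻¹ * f)⁻¹ = t⁻¹ * t' := by group
    rwa [h4] at h3

/-- One step of the chain, with many cosets. -/
theorem Phi_step_multi {F : Finset G} (hF : F.Nonempty) {K' K : Subgroup G} (hKK : K' ≤ K)
    {T : Finset G} (hTn : T.Nonempty) (hT : ∀ t ∈ T, t ∈ K)
    (hd : ∀ t ∈ T, ∀ t' ∈ T, t⁻¹ * t' ∈ K' → t = t') {c : ℝ} (hc1 : c ≤ 1)
    (hc : ∑ t ∈ T, (out F t : ℝ) ≤ c * T.card * F.card) :
    Phi F K' + F.card * ((1 - c) * Real.log ((1 - c) * T.card)) ≤ Phi F K := by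
  classical
  have hFc : (0 : ℝ) < F.card := by exact_mod_cast hF.card_pos
  have hN : (0 : ℝ) < T.card := by exact_mod_cast hTn.card_pos
  by_cases hsmall : (1 - c) * T.card ≤ 1
  · have h1 : Real.log ((1 - c) * T.card) ≤ 0 :=
      Real.log_nonpos (mul_nonneg (by linarith) hN.le) hsmall
    have h2 : (1 - c) * Real.log ((1 - c) * T.card) ≤ 0 :=
      mul_nonpos_of_nonneg_of_nonpos (by linarith) h1
    have h3 := Phi_mono F hKK
    nlinarith
  push Not at hsmall
  -- the actual average
  set ρ : G → ℝ := fun h => (cc F K' h : ℝ) / cc F K h with hρ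
  have hρ0 : ∀ h, 0 ≤ ρ h := fun h => by positivity
  have hccK : ∀ t ∈ T, ∀ h, cc F K (h * t) = cc F K h := by
    intro t ht h
    unfold cc
    congr 1
    apply Finset.filter_congr
    intro f _
    have h4 : h⁻¹ * f = t * ((h * t)⁻¹ * f) := by group
    rw [h4, K.mul_mem_cancel_left (hT t ht)]
  have hρ1 : ∀ f ∈ F, ρ f ≤ 1 := by
    intro f hf
    have h1 : (0 : ℝ) < cc F K f := by exact_mod_cast cc_pos K hf
    have h2 : cc F K' f ≤ cc F K f := by
      unfold cc
      apply Finset.card_le_card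
      intro x hx
      rw [Finset.mem_filter] at hx ⊢
      exact ⟨hx.1, hKK hx.2⟩
    rw [hρ]
    simp only
    rw [div_le_one h1]
    exact_mod_cast h2
  have hsum : ∀ f ∈ F, ∑ t ∈ T, ρ (f * t) ≤ 1 := by
    intro f hf
    have h1 : (0 : ℝ) < cc F K f := by exact_mod_cast cc_pos K hf
    have h2 : ∑ t ∈ T, ρ (f * t) = (∑ t ∈ T, (cc F K' (f * t) : ℝ)) / cc F K f := by
      rw [Finset.sum_div]
      apply Finset.sum_congr rfl
      intro t ht
      simp only [hρ]
      rw [hccK t ht]
    rw [h2, div_le_one h1]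
    exact_mod_cast cc_sum_le F hKK T hT hd f
  -- the weight
  set w : G → ℝ := fun y => ((T.filter fun t => y * t⁻¹ ∈ F).card : ℝ) with hw
  have hw0 : ∀ y, 0 ≤ w y := fun y => Nat.cast_nonneg _
  have hwN : ∀ y, w y ≤ T.card := fun y => by
    simp only [hw]
    exact_mod_cast Finset.card_filter_le _ _
  have hwsum : ∑ y ∈ F, w y = T.card * F.card - ∑ t ∈ T, (out F t : ℝ) := by
    have h1 : ∑ y ∈ F, w y = ∑ t ∈ T, ((F.filter fun y => y * t⁻¹ ∈ F).card : ℝ) := by
      simp only [hw, Finset.card_filter, Nat.cast_sum]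
      rw [Finset.sum_comm]
    rw [h1]
    have h2 : ∀ t ∈ T, ((F.filter fun y => y * t⁻¹ ∈ F).card : ℝ) = F.card - out F t := by
      intro t _
      have := out_add F t⁻¹
      rw [out_inv] at this
      have h3 : ((F.filter fun y => y * t⁻¹ ∈ F).card : ℝ) + out F t = F.card := by
        exact_mod_cast this
      linarith
    rw [Finset.sum_congr rfl h2, Finset.sum_sub_distrib, Finset.sum_const, nsmul_eq_mul]
  have hwρ : ∑ y ∈ F, w y * ρ y ≤ F.card := by
    have h1 : ∑ y ∈ F, w y * ρ y = ∑ t ∈ T, ∑ y ∈ F with y * t⁻¹ ∈ F, ρ y := by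
      have : ∀ y ∈ F, w y * ρ y = ∑ t ∈ T, if y * t⁻¹ ∈ F then ρ y else 0 := by
        intro y _
        simp only [hw, Finset.card_filter, Nat.cast_sum, Finset.sum_mul]
        apply Finset.sum_congr rfl
        intro t _
        split_ifs <;> simp
      rw [Finset.sum_congr rfl this, Finset.sum_comm]
      apply Finset.sum_congr rfl
      intro t _
      rw [Finset.sum_filter]
    have h2 : ∀ t ∈ T, ∑ y ∈ F with y * t⁻¹ ∈ F, ρ y ≤ ∑ x ∈ F, ρ (x * t) := by
      intro t _
      have h3 : ∑ y ∈ F with y * t⁻¹ ∈ F, ρ y = ∑ x ∈ F with x * t ∈ F, ρ (x * t) := by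
        symm
        apply Finset.sum_bij (fun f _ => f * t)
        · intro f hf
          rw [Finset.mem_filter] at hf ⊢
          exact ⟨hf.2, by simpa using hf.1⟩
        · intro a _ b _ hab
          exact mul_right_cancel hab
        · intro f hf
          rw [Finset.mem_filter] at hf
          refine ⟨f * t⁻¹, ?_, by simp⟩
          rw [Finset.mem_filter]
          exact ⟨hf.2, by simpa using hf.1⟩
        · intro f _
          rfl
      rw [h3]
      apply Finset.sum_le_sum_of_subset_of_nonneg (Finset.filter_subset _ _)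
      intro f _ _
      exact hρ0 _
    rw [h1]
    refine (Finset.sum_le_sum h2).trans ?_
    rw [Finset.sum_comm]
    rw [← nsmul_one, ← Finset.sum_const]
    exact Finset.sum_le_sum hsum
  set W : ℝ := F.card - (∑ t ∈ T, (out F t : ℝ)) / T.card with hW
  have hWc : (1 - c) * F.card ≤ W := by
    rw [hW]
    have : (∑ t ∈ T, (out F t : ℝ)) / T.card ≤ c * F.card := by
      rw [div_le_iff₀ hN]
      linarith
    linarith
  have hWT : ∑ y ∈ F, w y = T.card * W := by
    rw [hwsum, hW]
    field_simp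
  have hW0 : 0 < W := by
    have h1 : 0 < 1 - c := by
      by_contra hcon
      push Not at hcon
      nlinarith
    have : 0 < (1 - c) * F.card := mul_pos h1 hFc
    linarith
  set lam : ℝ := W * T.card / F.card with hlam
  have hlam0 : 0 < lam := by positivity
  -- pointwise inequality
  have hpt : ∀ y ∈ F, Real.log (cc F K' y) + w y / T.card * (Real.log lam + 1 - lam * ρ y) ≤
      Real.log (cc F K y) := by
    intro y hy
    have h1 : (0 : ℝ) < cc F K y := by exact_mod_cast cc_pos K hy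
    have h2 : (0 : ℝ) < cc F K' y := by exact_mod_cast cc_pos K' hy
    have h3 : 0 < ρ y := div_pos h2 h1
    have h4 : Real.log (lam * ρ y) ≤ lam * ρ y - 1 := Real.log_le_sub_one_of_pos (by positivity)
    rw [Real.log_mul hlam0.ne' h3.ne'] at h4
    have h5 : Real.log (ρ y) = Real.log (cc F K' y) - Real.log (cc F K y) :=
      Real.log_div h2.ne' h1.ne'
    have h6 : Real.log (ρ y) ≤ 0 := Real.log_nonpos h3.le (hρ1 y hy)
    have h7 : 0 ≤ w y / T.card := div_nonneg (hw0 y) hN.le
    have h8 : w y / T.card ≤ 1 := (div_le_one hN).mpr (hwN y)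
    have h9 : w y / T.card * (Real.log lam + 1 - lam * ρ y) ≤ w y / T.card * (-Real.log (ρ y)) :=
      mul_le_mul_of_nonneg_left (by linarith) h7
    have h10 : w y / T.card * (-Real.log (ρ y)) ≤ 1 * (-Real.log (ρ y)) :=
      mul_le_mul_of_nonneg_right h8 (by linarith)
    linarith
  have htot := Finset.sum_le_sum hpt
  rw [Finset.sum_add_distrib] at htot
  have hexp : ∑ y ∈ F, w y / T.card * (Real.log lam + 1 - lam * ρ y) =
      (Real.log lam + 1) * W - lam / T.card * ∑ y ∈ F, w y * ρ y := by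
    have h1 : ∀ y ∈ F, w y / T.card * (Real.log lam + 1 - lam * ρ y) =
        (Real.log lam + 1) / T.card * w y - lam / T.card * (w y * ρ y) := by
      intro y _
      field_simp
    rw [Finset.sum_congr rfl h1, Finset.sum_sub_distrib, ← Finset.mul_sum, ← Finset.mul_sum, hWT]
    congr 1
    field_simp
  have hge : W * Real.log lam ≤ ∑ y ∈ F, w y / T.card * (Real.log lam + 1 - lam * ρ y) := by
    rw [hexp]
    have h1 : lam / T.card * ∑ y ∈ F, w y * ρ y ≤ lam / T.card * F.card :=
      mul_le_mul_of_nonneg_left hwρ (by positivity)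
    have h2 : lam / T.card * F.card = W := by
      rw [hlam]
      field_simp
    rw [h2] at h1
    linarith
  have hlamc : (1 - c) * T.card ≤ lam := by
    rw [hlam, le_div_iff₀ hFc]
    calc (1 - c) * T.card * F.card = (1 - c) * F.card * T.card := by ring
      _ ≤ W * T.card := mul_le_mul_of_nonneg_right hWc hN.le
  have hlog : Real.log ((1 - c) * T.card) ≤ Real.log lam :=
    Real.log_le_log (by linarith) hlamc
  have hlog0 : 0 ≤ Real.log ((1 - c) * T.card) := Real.log_nonneg hsmall.le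
  have hfin : F.card * ((1 - c) * Real.log ((1 - c) * T.card)) ≤ W * Real.log lam := by
    calc F.card * ((1 - c) * Real.log ((1 - c) * T.card))
        = ((1 - c) * F.card) * Real.log ((1 - c) * T.card) := by ring
      _ ≤ W * Real.log ((1 - c) * T.card) := mul_le_mul_of_nonneg_right hWc hlog0
      _ ≤ W * Real.log lam := mul_le_mul_of_nonneg_left hlog hW0.le
  unfold Phi
  linarith

/-- **The multi-scale growth inequality for Følner sets.** -/
theorem multi_folner {S : Finset G} {n : ℕ} (hn : 1 ≤ n) {F : Set G} (hF : IsFolner S n F)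
    (m : ℕ) (K : ℕ → Subgroup G) (T : ℕ → Finset G) (r : ℕ → G → ℕ) (c : ℕ → ℝ)
    (hK : ∀ i < m, K i ≤ K (i + 1)) (hTn : ∀ i < m, (T i).Nonempty)
    (hT : ∀ i < m, ∀ t ∈ T i, t ∈ K (i + 1))
    (hd : ∀ i < m, ∀ t ∈ T i, ∀ t' ∈ T i, t⁻¹ * t' ∈ K i → t = t')
    (hr : ∀ i < m, ∀ t ∈ T i, t ∈ Ball (S : Set G) (r i t)) (hc1 : ∀ i < m, c i ≤ 1)
    (hc : ∀ i < m, ∑ t ∈ T i, (r i t : ℝ) ≤ c i * n * (T i).card) :
    ∑ i ∈ Finset.range m, ((1 - c i) * Real.log ((1 - c i) * (T i).card)) ≤
      Real.log F.ncard := by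
  obtain ⟨hfin, hne, hfol⟩ := hF
  obtain ⟨F, rfl⟩ := hfin.exists_finset_coe
  have hne' : F.Nonempty := by exact_mod_cast hne
  rw [Set.ncard_coe_finset] at hfol ⊢
  have hFc : (0 : ℝ) < F.card := by exact_mod_cast hne'.card_pos
  have hn' : (0 : ℝ) < n := by exact_mod_cast hn
  have hD : ((((F : Set G) * (S : Set G)) \ (F : Set G)).ncard : ℝ) ≤ F.card / n := by
    rw [le_div_iff₀ hn']
    linarith
  have hout : ∀ i < m, ∑ t ∈ T i, (out F t : ℝ) ≤ c i * (T i).card * F.card := by
    intro i hi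
    have h1 : ∀ t ∈ T i, (out F t : ℝ) ≤ r i t * (F.card / n) := by
      intro t ht
      have h3 : (out F t : ℝ) ≤
          r i t * ((((F : Set G) * (S : Set G)) \ (F : Set G)).ncard : ℝ) := by
        exact_mod_cast out_ball F S (hr i hi t ht)
      exact h3.trans (mul_le_mul_of_nonneg_left hD (Nat.cast_nonneg _))
    refine (Finset.sum_le_sum h1).trans ?_
    rw [← Finset.sum_mul]
    calc (∑ t ∈ T i, (r i t : ℝ)) * (F.card / n) ≤ (c i * n * (T i).card) * (F.card / n) :=
          mul_le_mul_of_nonneg_right (hc i hi) (by positivity)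
      _ = c i * (T i).card * F.card := by field_simp
  have h : ∀ k ≤ m, F.card * ∑ i ∈ Finset.range k,
      ((1 - c i) * Real.log ((1 - c i) * (T i).card)) ≤ Phi F (K k) := by
    intro k hk
    induction k with
    | zero => simpa using Phi_nonneg F (K 0)
    | succ k ih =>
      rw [Finset.sum_range_succ, mul_add]
      have h1 := ih (by omega)
      have h2 := Phi_step_multi hne' (hK k (by omega)) (hTn k (by omega)) (hT k (by omega))
        (hd k (by omega)) (hc1 k (by omega)) (hout k (by omega))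
      linarith
  have h1 := (h m le_rfl).trans (Phi_le F _)
  exact le_of_mul_le_mul_left h1 hFc

/-- two elements -/
theorem pair_folner {S : Finset G} {n : ℕ} (hn : 1 ≤ n) {F : Set G} (hF : IsFolner S n F)
    (m : ℕ) (K : ℕ → Subgroup G) (g : ℕ → G) (r : ℕ → ℕ)
    (hK : ∀ i < m, K i ≤ K (i + 1)) (hg : ∀ i < m, g i ∈ K (i + 1)) (hg' : ∀ i < m, g i ∉ K i)
    (hr : ∀ i < m, g i ∈ Ball (S : Set G) (r i)) (hrn : ∀ i < m, r i ≤ 2 * n) :
    ∑ i ∈ Finset.range m, ((1 - (r i : ℝ) / (2 * n)) * Real.log ((1 - (r i : ℝ) / (2 * n)) * 2)) ≤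
      Real.log F.ncard := by
  classical
  have hn' : (0 : ℝ) < n := by exact_mod_cast hn
  have hne1 : ∀ i < m, (1 : G) ≠ g i := by
    intro i hi h
    apply hg' i hi
    rw [← h]
    exact (K i).one_mem
  have h := multi_folner hn hF m K (fun i => {1, g i}) (fun i t => if t = 1 then 0 else r i)
    (fun i => (r i : ℝ) / (2 * n)) hK ?_ ?_ ?_ ?_ ?_ ?_
  · have h2 : ∀ i ∈ Finset.range m, ((1 - (r i : ℝ) / (2 * n)) *
        Real.log ((1 - (r i : ℝ) / (2 * n)) * (({1, g i} : Finset G).card : ℝ))) =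
        ((1 - (r i : ℝ) / (2 * n)) * Real.log ((1 - (r i : ℝ) / (2 * n)) * 2)) := by
      intro i hi
      rw [Finset.card_pair (hne1 i (Finset.mem_range.mp hi))]
      norm_num
    rw [Finset.sum_congr rfl h2] at h
    exact h
  · intro i _
    exact ⟨1, by simp⟩
  · intro i hi t ht
    rw [Finset.mem_insert, Finset.mem_singleton] at ht
    rcases ht with rfl | rfl
    · exact (K (i + 1)).one_mem
    · exact hg i hi
  · intro i hi t ht t' ht' hm
    rw [Finset.mem_insert, Finset.mem_singleton] at ht ht'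
    rcases ht with rfl | rfl <;> rcases ht' with rfl | rfl
    · rfl
    · exfalso
      apply hg' i hi
      simpa using hm
    · exfalso
      apply hg' i hi
      simpa using hm
    · rfl
  · intro i hi t ht
    rw [Finset.mem_insert, Finset.mem_singleton] at ht
    split_ifs with h1
    · rw [h1]; exact one_mem_ball 0
    · rcases ht with h2 | h2
      · exact absurd h2 h1
      · rw [h2]; exact hr i hi
  · intro i hi
    rw [div_le_one (by positivity)]
    exact_mod_cast hrn i hi
  · intro i hi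
    rw [Finset.sum_pair (hne1 i hi), Finset.card_pair (hne1 i hi)]
    rw [if_pos rfl, if_neg (hne1 i hi).symm]
    push_cast
    field_simp
    linarith

/-- a tangent line of `u log (2 u)` -/
theorem log_lower {u : ℝ} (hu : 0 < u) : 1.3465 * u - 0.7072 ≤ u * Real.log (u * 2) := by
  have h2 : Real.sqrt 2 * Real.sqrt 2 = 2 := Real.mul_self_sqrt (by norm_num)
  have hs0 : 0 < Real.sqrt 2 := Real.sqrt_pos.mpr (by norm_num)
  have hs1 : (1.4141 : ℝ) ≤ Real.sqrt 2 := by
    apply Real.le_sqrt_of_sq_le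
    norm_num
  have h3 : Real.log (u * 2) = Real.log 2 / 2 + Real.log (u * Real.sqrt 2) := by
    have h4 : u * 2 = Real.sqrt 2 * (u * Real.sqrt 2) := by
      calc u * 2 = u * (Real.sqrt 2 * Real.sqrt 2) := by rw [h2]
        _ = _ := by ring
    rw [h4, Real.log_mul hs0.ne' (by positivity), Real.log_sqrt (by norm_num)]
  have h4 : 1 - (u * Real.sqrt 2)⁻¹ ≤ Real.log (u * Real.sqrt 2) :=
    Real.one_sub_inv_le_log_of_pos (by positivity)
  have h5 : u * (1 - (u * Real.sqrt 2)⁻¹) = u - Real.sqrt 2 / 2 := by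
    have : (u * Real.sqrt 2)⁻¹ = Real.sqrt 2 / (2 * u) := by
      rw [inv_eq_one_div, div_eq_div_iff (by positivity) (by positivity)]
      calc 1 * (2 * u) = (Real.sqrt 2 * Real.sqrt 2) * u := by rw [h2]; ring
        _ = _ := by ring
    rw [this]
    field_simp
  have h6 : u * (1 - (u * Real.sqrt 2)⁻¹) ≤ u * Real.log (u * Real.sqrt 2) :=
    mul_le_mul_of_nonneg_left h4 hu.le
  have hs2 : Real.sqrt 2 ≤ 1.4143 := by
    rw [Real.sqrt_le_left (by norm_num)]
    norm_num
  have hlog := Real.log_two_gt_d9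
  rw [h3]
  norm_num at hlog hs2 ⊢
  nlinarith

end Pool.Agent.Lib.MP_f7e2be_al
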