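import Pool.Agent.Lib.MP_f7e2be_al.Multi

/-!
# Conjugation closures in groups with small Følner functions
-/

set_option autoImplicit false

open Pointwise

namespace Pool.Agent.Lib.MP_f7e2be_al

variable {G : Type*} [Group G]

theorem ball_finite {S : Set G} (hS : S.Finite) (n : ℕ) : (Ball S n).Finite := by
  induction n with
  | zero =>
    apply (Set.finite_singleton (1 : G)).subset
    rintro g ⟨l, -, hn, rfl⟩
    have : l = [] := List.eq_nil_of_length_eq_zero (by omega)
    simp [this]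
  | succ n ih =>
    have h1 : (insert (1 : G) (S ∪ S⁻¹)).Finite := (hS.union hS.inv).insert 1
    apply (h1.mul ih).subset
    rintro g ⟨l, hl, hn, rfl⟩
    cases l with
    | nil => exact ⟨1, Set.mem_insert _ _, 1, one_mem_ball n, by simp⟩
    | cons a l =>
      refine ⟨a, ?_, l.prod, ?_, by simp⟩
      · rcases hl a List.mem_cons_self with h | h
        · exact Set.mem_insert_of_mem _ (Or.inl h)
        · exact Set.mem_insert_of_mem _ (Or.inr h)
      · exact ⟨l, fun x hx => hl x (List.mem_cons_of_mem _ hx),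
          by rw [List.length_cons] at hn; omega, rfl⟩

theorem exists_ball {S : Set G} {g : G} (hg : g ∈ Subgroup.closure S) : ∃ n, g ∈ Ball S n := by
  induction hg using Subgroup.closure_induction with
  | mem x hx => exact ⟨1, mem_ball_one (Or.inl hx)⟩
  | one => exact ⟨0, one_mem_ball 0⟩
  | mul x y _ _ hx hy =>
    obtain ⟨m, hm⟩ := hx
    obtain ⟨n, hn⟩ := hy
    exact ⟨m + n, mul_mem_ball hm hn⟩
  | inv x _ hx =>
    obtain ⟨m, hm⟩ := hx
    exact ⟨m, inv_mem_ball hm⟩

theorem ball_le_closure {S : Set G} (n : ℕ) : Ball S n ⊆ Subgroup.closure S := by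
  rintro g ⟨l, hl, -, rfl⟩
  apply Subgroup.list_prod_mem
  intro x hx
  rcases hl x hx with h | h
  · exact Subgroup.subset_closure h
  · rw [← inv_inv x]
    exact (Subgroup.closure S).inv_mem (Subgroup.subset_closure h)

theorem exists_ball_finite {S : Set G} (hS : Subgroup.closure S = ⊤) {Y : Set G}
    (hY : Y.Finite) : ∃ n, Y ⊆ Ball S n := by
  induction Y, hY using Set.Finite.induction_on with
  | empty => exact ⟨0, by simp⟩
  | insert _ _ ih =>
    rename_i a s _ _
    obtain ⟨n, hn⟩ := ih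
    obtain ⟨m, hm⟩ := exists_ball (S := S) (g := a) (by rw [hS]; trivial)
    refine ⟨max m n, ?_⟩
    rintro x (rfl | hx)
    · exact ball_mono (le_max_left _ _) hm
    · exact ball_mono (le_max_right _ _) (hn hx)

theorem ball_ball {S P : Set G} {L : ℕ} (hP : P ⊆ Ball S L) (j : ℕ) :
    Ball P j ⊆ Ball S (L * j) := by
  rintro g ⟨l, hl, hj, rfl⟩
  refine ball_mono (Nat.mul_le_mul_left L hj) ?_
  clear hj
  induction l with
  | nil => exact one_mem_ball _
  | cons a l ih =>
    rw [List.prod_cons, List.length_cons]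
    have h1 : a ∈ Ball S L := by
      rcases hl a List.mem_cons_self with h | h
      · exact hP h
      · rw [← inv_inv a]; exact inv_mem_ball (hP h)
    have h2 := mul_mem_ball h1 (ih (fun x hx => hl x (List.mem_cons_of_mem _ hx)))
    rwa [show L + L * l.length = L * (l.length + 1) by ring] at h2

/-- the conjugates of the elements of `Y` by the elements of length at most `j` -/
def CJ (P : Set G) (Y : Set G) (j : ℕ) : Set G :=
  {x | ∃ c ∈ Ball P j, ∃ y ∈ Y, x = c * y * c⁻¹}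

/-- the conjugates of the elements of `Y` by the elements of the subgroup `M` -/
def ConjSet (M : Subgroup G) (Y : Set G) : Set G := {x | ∃ c ∈ M, ∃ y ∈ Y, x = c * y * c⁻¹}

theorem CJ_mono {P Y : Set G} {i j : ℕ} (h : i ≤ j) : CJ P Y i ⊆ CJ P Y j := by
  rintro x ⟨c, hc, y, hy, rfl⟩
  exact ⟨c, ball_mono h hc, y, hy, rfl⟩

theorem CJ_finite {P Y : Set G} (hP : P.Finite) (hY : Y.Finite) (j : ℕ) :
    (CJ P Y j).Finite := by
  have h1 : ((Ball P j) ×ˢ Y).Finite := (ball_finite hP j).prod hY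
  apply (h1.image fun p => p.1 * p.2 * p.1⁻¹).subset
  rintro x ⟨c, hc, y, hy, rfl⟩
  exact ⟨(c, y), ⟨hc, hy⟩, rfl⟩

theorem CJ_ball {S P Y : Set G} {L j k : ℕ} (hP : P ⊆ Ball S L) (hY : Y ⊆ Ball S k) :
    CJ P Y j ⊆ Ball S (2 * L * j + k) := by
  rintro x ⟨c, hc, y, hy, rfl⟩
  have hc' := ball_ball hP j hc
  have := mul_mem_ball (mul_mem_ball hc' (hY hy)) (inv_mem_ball hc')
  rwa [show L * j + k + L * j = 2 * L * j + k by ring] at this

theorem CJ_le (P Y : Set G) (j : ℕ) :
    Subgroup.closure (CJ P Y j) ≤ Subgroup.closure (ConjSet (Subgroup.closure P) Y) := by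
  apply Subgroup.closure_mono
  rintro x ⟨c, hc, y, hy, rfl⟩
  exact ⟨c, ball_le_closure j hc, y, hy, rfl⟩

theorem CJ_stab {P Y : Set G} {j : ℕ}
    (h : Subgroup.closure (CJ P Y (j + 1)) ≤ Subgroup.closure (CJ P Y j)) :
    Subgroup.closure (CJ P Y j) = Subgroup.closure (ConjSet (Subgroup.closure P) Y) := by
  apply le_antisymm (CJ_le P Y j)
  set H := Subgroup.closure (CJ P Y j) with hH
  have hs : ∀ s : G, (s ∈ P ∨ s⁻¹ ∈ P) → ∀ x ∈ H, s * x * s⁻¹ ∈ H := by
    intro s hs x hx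
    have h1 : H ≤ H.comap (MulAut.conj s).toMonoidHom := by
      rw [hH, Subgroup.closure_le]
      rintro x ⟨c, hc, y, hy, rfl⟩
      apply h
      apply Subgroup.subset_closure
      refine ⟨s * c, ?_, y, hy, ?_⟩
      · rw [add_comm]
        exact mul_mem_ball (mem_ball_one hs) hc
      · simp only [MulEquiv.coe_toMonoidHom, MulAut.conj_apply, mul_inv_rev, mul_assoc]
    exact h1 hx
  have hg : ∀ g ∈ Subgroup.closure P, ∀ x ∈ H, g * x * g⁻¹ ∈ H := by
    intro g hg
    obtain ⟨n, l, hl, -, rfl⟩ := exists_ball hg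
    clear hg
    induction l with
    | nil => intro x hx; simpa using hx
    | cons a l ih =>
      intro x hx
      have h1 := ih (fun x hx => hl x (List.mem_cons_of_mem _ hx)) x hx
      have h2 := hs a (hl a List.mem_cons_self) _ h1
      rw [List.prod_cons]
      have h3 : a * (l.prod * x * l.prod⁻¹) * a⁻¹ = a * l.prod * x * (a * l.prod)⁻¹ := by group
      rwa [h3] at h2
  rw [Subgroup.closure_le]
  rintro x ⟨c, hc, y, hy, rfl⟩
  apply hg c hc
  apply Subgroup.subset_closure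
  exact ⟨1, one_mem_ball j, y, hy, by simp⟩

/-- new elements as long as the chain does not stabilise -/
theorem CJ_new {P Y : Set G} {j : ℕ}
    (h : Subgroup.closure (CJ P Y j) ≠ Subgroup.closure (ConjSet (Subgroup.closure P) Y)) :
    ∃ x ∈ CJ P Y (j + 1), x ∉ Subgroup.closure (CJ P Y j) := by
  by_contra hcon
  push Not at hcon
  apply h
  apply CJ_stab
  rw [Subgroup.closure_le]
  exact hcon

/-- **Uniform generation of conjugation closures.** -/
theorem conj_uniform {S : Finset G} (hF : SubexpFolner S) {ε : ℝ} (hε : 0 < ε) (L : ℕ) :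
    ∃ N : ℕ, ∀ n : ℕ, N ≤ n → ∀ P ⊆ Ball (S : Set G) L, ∀ Y ⊆ Ball (S : Set G) n,
      Subgroup.closure (CJ P Y ⌊ε * n⌋₊) =
        Subgroup.closure (ConjSet (Subgroup.closure P) Y) := by
  have hl : (0 : ℝ) < Real.log 2 - 1 / 2 := by linarith [Real.log_two_gt_d9]
  obtain ⟨N, hN⟩ := hF (ε * (Real.log 2 - 1 / 2) / (4 * (2 * L * ε + 2 * L + 1)))
    (by positivity)
  refine ⟨max N 1, fun n hn P hP Y hY => ?_⟩
  have hn1 : 1 ≤ n := (le_max_right _ _).trans hn
  have hnN : N ≤ n := (le_max_left _ _).trans hn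
  have hn0 : (1 : ℝ) ≤ n := by exact_mod_cast hn1
  set J := ⌊ε * n⌋₊ with hJ
  by_contra hcon
  have hne : ∀ j < J + 1, Subgroup.closure (CJ P Y j) ≠
      Subgroup.closure (ConjSet (Subgroup.closure P) Y) := by
    intro j hj h
    apply hcon
    apply le_antisymm (CJ_le _ _ _)
    rw [← h]
    exact Subgroup.closure_mono (CJ_mono (by omega))
  have hex : ∀ j : ℕ, ∃ x : G, j < J + 1 → x ∈ CJ P Y (j + 1) ∧
      x ∉ Subgroup.closure (CJ P Y j) := by
    intro j
    by_cases hj : j < J + 1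
    · obtain ⟨x, h1, h2⟩ := CJ_new (hne j hj)
      exact ⟨x, fun _ => ⟨h1, h2⟩⟩
    · exact ⟨1, fun h => absurd h hj⟩
  choose g hg using hex
  set R : ℕ := 2 * L * (J + 1) + n with hR
  have hR1 : 1 ≤ 2 * R := by omega
  obtain ⟨F, hfin, hFne, hcard, hfol⟩ := hN (2 * R) (by omega) hR1
  have hch := chain_folner hR1 (⟨hfin, hFne, hfol⟩ : IsFolner S (2 * R) F) (J + 1)
    (fun j => Subgroup.closure (CJ P Y j)) g (fun _ => R)
    (fun i _ => Subgroup.closure_mono (CJ_mono (by omega)))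
    (fun i hi => Subgroup.subset_closure (hg i hi).1) (fun i hi => (hg i hi).2)
    (fun i hi => ball_mono (by
      have : 2 * L * (i + 1) ≤ 2 * L * (J + 1) := Nat.mul_le_mul_left _ (by omega)
      omega) (CJ_ball hP hY (hg i hi).1))
  rw [Finset.sum_const, Finset.card_range, nsmul_eq_mul] at hch
  have hRpos : (0 : ℝ) < R := by
    have : 0 < R := by omega
    exact_mod_cast this
  have h1 : (R : ℝ) / ((2 * R : ℕ) : ℝ) = 1 / 2 := by
    push_cast
    field_simp
  rw [h1] at hch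
  have hFpos : (0 : ℝ) < F.ncard := by
    have := (Set.ncard_pos hfin).mpr hFne
    exact_mod_cast this
  have h2 : Real.log F.ncard ≤
      ε * (Real.log 2 - 1 / 2) / (4 * (2 * L * ε + 2 * L + 1)) * ((2 * R : ℕ) : ℝ) := by
    have := Real.log_le_log hFpos hcard
    rwa [Real.log_exp] at this
  have hJ1 : ε * n < (J : ℝ) + 1 := Nat.lt_floor_add_one _
  have hJ2 : (J : ℝ) ≤ ε * n := Nat.floor_le (by positivity)
  have hL0 : (0 : ℝ) ≤ L := Nat.cast_nonneg _
  have hR2 : (R : ℝ) ≤ (2 * L * ε + 2 * L + 1) * n := by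
    rw [hR]
    push_cast
    have h5 : (2 * L : ℝ) * (J + 1) ≤ 2 * L * (ε * n + n) :=
      mul_le_mul_of_nonneg_left (by linarith) (by positivity)
    nlinarith
  have h3 : ε * (Real.log 2 - 1 / 2) / (4 * (2 * L * ε + 2 * L + 1)) * ((2 * R : ℕ) : ℝ) ≤
      ε * (Real.log 2 - 1 / 2) * n / 2 := by
    push_cast
    calc ε * (Real.log 2 - 1 / 2) / (4 * (2 * L * ε + 2 * L + 1)) * (2 * R)
        ≤ ε * (Real.log 2 - 1 / 2) / (4 * (2 * L * ε + 2 * L + 1)) *
          (2 * ((2 * L * ε + 2 * L + 1) * n)) := by gcongr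
      _ = ε * (Real.log 2 - 1 / 2) * n / 2 := by
        field_simp
        ring
  have h4 : ε * n * (Real.log 2 - 1 / 2) ≤ ((J + 1 : ℕ) : ℝ) * (Real.log 2 - 1 / 2) := by
    apply mul_le_mul_of_nonneg_right _ hl.le
    push_cast
    exact hJ1.le
  have h5 : 0 < ε * (Real.log 2 - 1 / 2) * n := by positivity
  nlinarith

/-- **The gap for groups with an infinitely generated conjugation closure.** -/
theorem conj_gap {S : Finset G} (hS : Subgroup.closure (S : Set G) = ⊤) {L : ℕ} (hL : 1 ≤ L)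
    {P : Set G} (hP : P ⊆ Ball (S : Set G) L) {Y : Set G} (hY : Y.Finite)
    (hfg : ¬ (Subgroup.closure (ConjSet (Subgroup.closure P) Y)).FG) :
    ∃ n₀ : ℕ, ∀ n : ℕ, n₀ ≤ n → ∀ F : Set G, F.Finite → F.Nonempty →
      (n : ℝ) * ((((F * (S : Set G)) \ F).ncard : ℕ) : ℝ) ≤ (F.ncard : ℝ) →
      Real.exp ((n : ℝ) / (7 * L)) ≤ F.ncard := by
  obtain ⟨k, hk⟩ := exists_ball_finite hS hY
  have hPf : P.Finite := (ball_finite S.finite_toSet L).subset hP
  have hne : ∀ j, Subgroup.closure (CJ P Y j) ≠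
      Subgroup.closure (ConjSet (Subgroup.closure P) Y) := by
    intro j h
    apply hfg
    rw [← h]
    exact Subgroup.fg_iff _ |>.mpr ⟨_, rfl, CJ_finite hPf hY j⟩
  choose g hg using fun j => CJ_new (hne j)
  refine ⟨1000 * (L + k + 1), fun n hn F hfin hFne hfol => ?_⟩
  have hn1 : 1 ≤ n := by omega
  obtain ⟨J, hJ⟩ : ∃ J : ℕ, J = 23 * n / (50 * L) := ⟨_, rfl⟩
  have hJn : 50 * L * J ≤ 23 * n := by rw [hJ]; exact Nat.mul_div_le _ _
  have hJn2 : 23 * n < 50 * L * (J + 1) := by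
    rw [hJ]
    exact Nat.lt_mul_div_succ _ (by omega)
  have hrn : ∀ i < J, 2 * L * (i + 1) + k < 2 * n := by
    intro i hi
    have : 2 * L * (i + 1) ≤ 2 * L * J := Nat.mul_le_mul_left _ (by omega)
    have h2 : 50 * L * J = 25 * (2 * L * J) := by ring
    omega
  have hch := pair_folner hn1 (⟨hfin, hFne, hfol⟩ : IsFolner S n F) J
    (fun j => Subgroup.closure (CJ P Y j)) g (fun j => 2 * L * (j + 1) + k)
    (fun i _ => Subgroup.closure_mono (CJ_mono (by omega)))
    (fun i _ => Subgroup.subset_closure (hg i).1) (fun i _ => (hg i).2)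
    (fun i _ => CJ_ball hP hk (hg i).1) (fun i hi => (hrn i hi).le)
  have hFpos : (0 : ℝ) < F.ncard := by
    have := (Set.ncard_pos hfin).mpr hFne
    exact_mod_cast this
  rw [← Real.le_log_iff_exp_le hFpos]
  refine le_trans ?_ hch
  have hL1 : (1 : ℝ) ≤ L := by exact_mod_cast hL
  have hLpos : (0 : ℝ) < L := by linarith
  have hn0 : (1000 : ℝ) * (L + k + 1) ≤ n := by exact_mod_cast hn
  have hk0 : (0 : ℝ) ≤ k := Nat.cast_nonneg _
  have hnpos : (0 : ℝ) < n := by linarith
  have hJ1 : 50 * (L : ℝ) * J ≤ 23 * n := by exact_mod_cast hJn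
  have hJ2 : 23 * (n : ℝ) < 50 * L * (J + 1) := by exact_mod_cast hJn2
  have hstep : ∀ i ∈ Finset.range J,
      (1.3465 * (1 - ((2 * L * (i + 1) + k : ℕ) : ℝ) / (2 * n)) - 0.7072) ≤
      (1 - ((2 * L * (i + 1) + k : ℕ) : ℝ) / (2 * n)) *
        Real.log ((1 - ((2 * L * (i + 1) + k : ℕ) : ℝ) / (2 * n)) * 2) := by
    intro i hi
    apply log_lower
    rw [Finset.mem_range] at hi
    have h1 : ((2 * L * (i + 1) + k : ℕ) : ℝ) < 2 * n := by exact_mod_cast hrn i hi
    have h2 : ((2 * L * (i + 1) + k : ℕ) : ℝ) / (2 * n) < 1 :=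
      (div_lt_one (by positivity)).mpr h1
    linarith
  refine le_trans ?_ (Finset.sum_le_sum hstep)
  have hsum : ∀ J : ℕ, ∑ i ∈ Finset.range J,
      (1.3465 * (1 - ((2 * L * (i + 1) + k : ℕ) : ℝ) / (2 * n)) - 0.7072) =
      J * (0.6393 - 1.3465 * ((L * (J + 1) + k) / (2 * n))) := by
    intro J
    induction J with
    | zero => simp
    | succ J ih =>
      rw [Finset.sum_range_succ, ih]
      push_cast
      field_simp
      ring
  rw [hsum]
  have h1 : (L * ((J : ℝ) + 1) + k) / (2 * n) ≤ 0.2305 := by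
    rw [div_le_iff₀ (by positivity)]
    norm_num
    nlinarith
  have h2 : (0.3289 : ℝ) ≤ 0.6393 - 1.3465 * ((L * ((J : ℝ) + 1) + k) / (2 * n)) := by
    norm_num at h1 ⊢
    linarith
  have h3 : (0.459 : ℝ) * (n / L) ≤ J := by
    have h4 : (n : ℝ) / L * L = n := by field_simp
    have h5 : (0.459 : ℝ) * n ≤ J * L := by
      norm_num
      nlinarith
    rw [← mul_div_assoc, div_le_iff₀ hLpos]
    exact h5
  have h6 : 0 < (n : ℝ) / L := by positivity
  calc (n : ℝ) / (7 * L) = (n / L) / 7 := by field_simp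
    _ ≤ 0.459 * (n / L) * 0.3289 := by norm_num; linarith
    _ ≤ (J : ℝ) * (0.6393 - 1.3465 * ((L * ((J : ℝ) + 1) + k) / (2 * n))) := by
      apply mul_le_mul h3 h2 (by norm_num) (by positivity)

end Pool.Agent.Lib.MP_f7e2be_al
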